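import Mathlib
import Pool.Agent.Lib.MP_209724_lc.CT.DenseT
import Pool.Agent.Lib.MP_209724_lc.CT.DimGe
import Pool.Agent.Lib.MP_209724_lc.SC2.Final

/-!
# Exponential points on free rotund varieties given by few equations

Let `V ⊆ ℂⁿ × (ℂ*)ⁿ` be an irreducible variety which is free and rotund, and let `W` be the Zariski
closure of its projection to `ℂⁿ`. If the codimension of `V` in `ℂⁿ × (ℂ*)ⁿ` is at most three, or the
codimension of `V` in `W × (ℂ*)ⁿ` is at most one, then there are points `(x, exp x)` on `V` with `x` of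
arbitrarily large norm, and these `x` are Zariski dense in `W`. If the codimension of `V` is at most
two, then the points `(x, exp x)` on `V` are Zariski dense in `V`. There is no restriction on `n`.
If `n ≤ 3`, then the codimension of every rotund `V` is at most three: see `dimV_of_le_three`.

The variety `V` is given by a prime ideal `Q` of `ℂ[x, y]`, `x = (x₁, …, xₙ)`, `y = (y₁, …, yₙ)`,
which contains no `y i`. The variable `x i` is `X (Sum.inl i)`, the variable `y i` is `X (Sum.inr i)`.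
-/

namespace Pool.Agent.Results.MP_209724_lc.FewEquations

open MvPolynomial

variable {n : ℕ}

/-- The function field of `V`. -/
abbrev FunctionField (Q : Ideal (MvPolynomial (Fin n ⊕ Fin n) ℂ)) [Q.IsPrime] : Type :=
  FractionRing (MvPolynomial (Fin n ⊕ Fin n) ℂ ⧸ Q)

/-- The function on `V` given by a polynomial in `x`, `y`. -/
noncomputable def fn (Q : Ideal (MvPolynomial (Fin n ⊕ Fin n) ℂ)) [Q.IsPrime]
    (f : MvPolynomial (Fin n ⊕ Fin n) ℂ) : FunctionField Q :=
  algebraMap (MvPolynomial (Fin n ⊕ Fin n) ℂ ⧸ Q) (FunctionField Q) (Ideal.Quotient.mk Q f)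

/-- The coordinate function `x i` on `V`. -/
noncomputable def xcoord (Q : Ideal (MvPolynomial (Fin n ⊕ Fin n) ℂ)) [Q.IsPrime] (i : Fin n) :
    FunctionField Q := fn Q (X (Sum.inl i))

/-- The coordinate function `y i` on `V`. -/
noncomputable def ycoord (Q : Ideal (MvPolynomial (Fin n ⊕ Fin n) ℂ)) [Q.IsPrime] (i : Fin n) :
    FunctionField Q := fn Q (X (Sum.inr i))

/-- `V` is free: neither `∑ m i * x i` nor `∏ y i ^ m i` is constant on `V`, for `m ∈ ℤⁿ` nonzero. -/
def Free (Q : Ideal (MvPolynomial (Fin n ⊕ Fin n) ℂ)) [Q.IsPrime] : Prop :=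
  ∀ m : Fin n → ℤ, m ≠ 0 → ∀ c : ℂ,
    ∑ i, (m i : FunctionField Q) * xcoord Q i ≠ algebraMap ℂ (FunctionField Q) c ∧
      ∏ i, ycoord Q i ^ m i ≠ algebraMap ℂ (FunctionField Q) c

/-- `V` is rotund: for every integral matrix `B`, the dimension of the image of `V` under
`(x, y) ↦ (B x, y ^ B)`, which is the transcendence degree of the algebra generated by the functions
`∑ j, B i j * x j` and `∏ j, y j ^ B i j` on `V`, is at least the rank of `B`. -/
def Rotund (Q : Ideal (MvPolynomial (Fin n ⊕ Fin n) ℂ)) [Q.IsPrime] : Prop :=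
  ∀ B : Matrix (Fin n) (Fin n) ℤ, ((B.map (Int.cast : ℤ → ℚ)).rank : Cardinal) ≤
    Algebra.trdeg ℂ (Algebra.adjoin ℂ
      (Set.range (fun i => ∑ j, (B i j : FunctionField Q) * xcoord Q j) ∪
        Set.range fun i => ∏ j, ycoord Q j ^ B i j))

/-- The dimension of `V`. -/
noncomputable def dimV (Q : Ideal (MvPolynomial (Fin n ⊕ Fin n) ℂ)) : Cardinal :=
  Algebra.trdeg ℂ (MvPolynomial (Fin n ⊕ Fin n) ℂ ⧸ Q)

/-- The dimension of the closure `W` of the projection of `V` to `ℂⁿ`. -/
noncomputable def projDim (Q : Ideal (MvPolynomial (Fin n ⊕ Fin n) ℂ)) [Q.IsPrime] : Cardinal :=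
  Algebra.trdeg ℂ (Algebra.adjoin ℂ (Set.range (xcoord Q)))

/-- In at most three variables every rotund `V` has codimension at most three. -/
theorem dimV_of_le_three (hn3 : n ≤ 3) (Q : Ideal (MvPolynomial (Fin n ⊕ Fin n) ℂ))
    [hQ : Q.IsPrime] (hrot : Rotund Q) : (2 * n : Cardinal) ≤ dimV Q + 3 := by
  have hinj : Function.Injective
      (algebraMap (MvPolynomial (Fin n ⊕ Fin n) ℂ ⧸ Q) (FunctionField Q)) :=
    IsFractionRing.injective _ _
  have hfn : ∀ f, fn Q f = 0 ↔ f ∈ Q := by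
    intro f
    rw [fn, map_eq_zero_iff _ hinj, Ideal.Quotient.eq_zero_iff_mem]
  have haev : ∀ f : MvPolynomial (Fin n ⊕ Fin n) ℂ,
      aeval (Sum.elim (xcoord Q) (ycoord Q)) f = fn Q f := by
    intro f
    induction f using MvPolynomial.induction_on with
    | C a =>
      rw [aeval_C]
      rfl
    | add p q hp hq =>
      rw [map_add, hp, hq]
      simp only [fn, map_add]
    | mul_X p i hp =>
      rw [map_mul, hp, aeval_X]
      rcases i with i | i
      · simp only [fn, xcoord, Sum.elim_inl, map_mul]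
      · simp only [fn, ycoord, Sum.elim_inr, map_mul]
  have h1 := Pool.Agent.Lib.MP_209724_lc.CT.dim_ge Q (xcoord Q) (ycoord Q)
    (fun f => by rw [haev, hfn]) hrot
  calc (2 * n : Cardinal) ≤ (n : Cardinal) + 3 := by
        have h2 : 2 * n ≤ n + 3 := by omega
        exact_mod_cast h2
    _ ≤ dimV Q + 3 := by
        gcongr
        exact h1

/-- Let `n > 0` and let `Q` be a prime ideal of `ℂ[x, y]`, `x = (x₁, …, xₙ)`, `y = (y₁, …, yₙ)`,
which contains no `y i`, such that its zero set `V` in `ℂⁿ × (ℂ*)ⁿ` is free and rotund. Let `W` be the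
closure of the projection of `V` to `ℂⁿ`.

1. Suppose that `dim V ≥ 2 n - 3` or `dim V ≥ dim W + n - 1`. Then for every polynomial `c` in `x`
which does not vanish on `V` and every `M` there is `x ∈ ℂⁿ` with `M < ‖x‖`, `(x, exp x) ∈ V` and
`c(x) ≠ 0`.

2. Suppose that `dim V ≥ 2 n - 2`. Then for every polynomial `D` in `x`, `y` which does not vanish on
`V` there is `x ∈ ℂⁿ` with `(x, exp x) ∈ V` and `D(x, exp x) ≠ 0`. -/
theorem result (hn : 0 < n) (Q : Ideal (MvPolynomial (Fin n ⊕ Fin n) ℂ)) [hQ : Q.IsPrime]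
    (hy : ∀ i, (X (Sum.inr i) : MvPolynomial (Fin n ⊕ Fin n) ℂ) ∉ Q)
    (hfree : Free Q) (hrot : Rotund Q) :
    ((2 * n ≤ dimV Q + 3 ∨ projDim Q + n ≤ dimV Q + 1) →
      ∀ (c : MvPolynomial (Fin n) ℂ), rename Sum.inl c ∉ Q → ∀ M : ℝ, ∃ x : Fin n → ℂ, M < ‖x‖ ∧
        (∀ f ∈ Q, eval (Sum.elim x fun i => Complex.exp (x i)) f = 0) ∧ eval x c ≠ 0) ∧
    (2 * n ≤ dimV Q + 2 →
      ∀ D ∉ Q, ∃ x : Fin n → ℂ,
        (∀ f ∈ Q, eval (Sum.elim x fun i => Complex.exp (x i)) f = 0) ∧
          eval (Sum.elim x fun i => Complex.exp (x i)) D ≠ 0) := by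
  have hinj : Function.Injective
      (algebraMap (MvPolynomial (Fin n ⊕ Fin n) ℂ ⧸ Q) (FunctionField Q)) :=
    IsFractionRing.injective _ _
  have hfn : ∀ f, fn Q f = 0 ↔ f ∈ Q := by
    intro f
    rw [fn, map_eq_zero_iff _ hinj, Ideal.Quotient.eq_zero_iff_mem]
  have haev : ∀ f : MvPolynomial (Fin n ⊕ Fin n) ℂ,
      aeval (Sum.elim (xcoord Q) (ycoord Q)) f = fn Q f := by
    intro f
    induction f using MvPolynomial.induction_on with
    | C a =>
      rw [aeval_C]
      rfl
    | add p q hp hq =>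
      rw [map_add, hp, hq]
      simp only [fn, map_add]
    | mul_X p i hp =>
      rw [map_mul, hp, aeval_X]
      rcases i with i | i
      · simp only [fn, xcoord, Sum.elim_inl, map_mul]
      · simp only [fn, ycoord, Sum.elim_inr, map_mul]
  have hne : ∀ i, ycoord Q i ≠ 0 := fun i h0 => hy i ((hfn _).1 h0)
  have htd : Algebra.trdeg ℂ (Algebra.adjoin ℂ (Set.range (xcoord Q) ∪ Set.range (ycoord Q))) =
      dimV Q :=
    Pool.Agent.Lib.MP_209724_lc.SC2.trdeg_adjoin_gen Q (xcoord Q) (ycoord Q)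
      fun f => by rw [haev, hfn]
  refine ⟨fun h c hc M => ?_, fun h D hD => ?_⟩
  · obtain ⟨x, hx, hxc, hf⟩ := Pool.Agent.Lib.MP_209724_lc.CT.transfer hn (xcoord Q) (ycoord Q) hne
      hfree hrot (by rw [htd]; exact h) c (by
      intro h0
      apply hc
      rw [← hfn, ← haev, aeval_rename, Sum.elim_comp_inl]
      exact h0) M
    exact ⟨x, hx, fun f hfQ => hf f (by rw [haev, hfn]; exact hfQ), hxc⟩
  · obtain ⟨x, hf, hxD⟩ := Pool.Agent.Lib.MP_209724_lc.CT.dense hn (xcoord Q) (ycoord Q) hne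
      hfree hrot (by rw [htd]; exact h) D (by
      intro h0
      apply hD
      rw [← hfn, ← haev]
      exact h0)
    exact ⟨x, fun f hfQ => hf f (by rw [haev, hfn]; exact hfQ), hxD⟩

end Pool.Agent.Results.MP_209724_lc.FewEquations
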