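import Mathlib
import Pool.Agent.Lib.MP_209724_lc.GF.Final

/-!
# Exponential points of all varieties over a variety in general position at infinity

Let `V ⊆ ℂⁿ × (ℂ*)ⁿ` be irreducible of dimension at least `n`, and let `W ⊆ ℂⁿ` be the Zariski
closure of its projection to the `x`-coordinates, of dimension `d > 0`. Suppose that the asymptotic
cone of `W` has an irreducible component `Z` of dimension `d` such that

* the real points of `Z` are Zariski dense in `Z`, and any `d` linear forms with integer coefficients
  which are linearly independent are algebraically independent on `Z`, or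
* no `d` linear forms with integer coefficients which are linearly independent have a common zero
  other than `0` on `Z`.

Then the points `(x, exp x) ∈ V` are Zariski dense in `V`.

No further condition on `V` is needed (such a `V` is rotund).
-/

namespace Pool.Agent.Results.MP_209724_lc.GeneralPosition

open MvPolynomial Filter Topology

variable {n d : ℕ}

/-- The asymptotic cone of the zero set `W` of the ideal `p`: the limits of `x j / r j`, where
`r j` are reals tending to infinity and `x j ∈ W`. -/
def AsymptoticCone (p : Ideal (MvPolynomial (Fin n) ℂ)) : Set (Fin n → ℂ) :=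
  {w | ∃ (r : ℕ → ℝ) (x : ℕ → Fin n → ℂ), Tendsto r atTop atTop ∧
    (∀ j, ∀ f ∈ p, eval (x j) f = 0) ∧ Tendsto (fun j => (r j)⁻¹ • x j) atTop (𝓝 w)}

/-- The zero set `Z` of the prime ideal `q` is an irreducible component of the asymptotic cone of
the zero set of `p`: it is contained in the cone, and the points of the cone outside of `Z` are
zeros of a polynomial `G ∉ q`. -/
def IsComponent (p q : Ideal (MvPolynomial (Fin n) ℂ)) : Prop :=
  (∀ z : Fin n → ℂ, (∀ f ∈ q, eval z f = 0) → z ∈ AsymptoticCone p) ∧
    ∃ G ∉ q, ∀ z ∈ AsymptoticCone p, eval z G ≠ 0 → ∀ f ∈ q, eval z f = 0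

/-- The real points of the zero set of the prime ideal `q` are Zariski dense in it. -/
def RealPointsDense (q : Ideal (MvPolynomial (Fin n) ℂ)) : Prop :=
  ∀ g ∉ q, ∃ η : Fin n → ℝ, (∀ f ∈ q, eval (fun i => (η i : ℂ)) f = 0) ∧
    eval (fun i => (η i : ℂ)) g ≠ 0

/-- Any `d` linear forms with integer coefficients which are linearly independent are algebraically
independent on the zero set of the prime ideal `q` (of dimension `d`). -/
def InGeneralPosition (d : ℕ) (q : Ideal (MvPolynomial (Fin n) ℂ)) : Prop :=
  ∀ m : Fin d → Fin n → ℤ, LinearIndependent ℤ m →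
    AlgebraicIndependent ℂ fun j => Ideal.Quotient.mk q (∑ k, C (m j k : ℂ) * X k)

/-- No `d` linear forms with integer coefficients which are linearly independent have a common zero
other than `0` on the zero set of the ideal `q` (a cone of dimension `d`). -/
def InProperPosition (d : ℕ) (q : Ideal (MvPolynomial (Fin n) ℂ)) : Prop :=
  ∀ m : Fin d → Fin n → ℤ, LinearIndependent ℤ m → ∀ z : Fin n → ℂ,
    (∀ f ∈ q, eval z f = 0) → (∀ j, ∑ k, (m j k : ℂ) * z k = 0) → z = 0

/-- Let `Q` be a prime ideal of `ℂ[x, y]`, `x = (x₁, …, xₙ)`, `y = (y₁, …, yₙ)`, containing no `y_i`,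
with zero set `V` of dimension at least `n`. Let `W`, the zero set of `Q ∩ ℂ[x]`, be of dimension
`d > 0`, and let `q` be a prime ideal whose zero set `Z` is an irreducible component of dimension `d`
of the asymptotic cone of `W`, which is in general position and has Zariski dense real points, or
which is in proper position. Then for every `D ∉ Q` there are `x` of arbitrarily large norm with
`(x, exp x) ∈ V` and `D(x, exp x) ≠ 0`. -/
theorem result (Q : Ideal (MvPolynomial (Fin n ⊕ Fin n) ℂ)) (hQ : Q.IsPrime)
    (hy : ∀ i, (X (Sum.inr i) : MvPolynomial (Fin n ⊕ Fin n) ℂ) ∉ Q)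
    (hdim : (n : Cardinal) ≤ Algebra.trdeg ℂ (MvPolynomial (Fin n ⊕ Fin n) ℂ ⧸ Q))
    (hd : 0 < d)
    (hW : Algebra.trdeg ℂ (MvPolynomial (Fin n) ℂ ⧸ Q.comap (rename (R := ℂ) Sum.inl)) = d)
    (q : Ideal (MvPolynomial (Fin n) ℂ)) (hq : q.IsPrime)
    (hZ : Algebra.trdeg ℂ (MvPolynomial (Fin n) ℂ ⧸ q) = d)
    (hWZ : IsComponent (Q.comap (rename Sum.inl)) q)
    (hpos : (RealPointsDense q ∧ InGeneralPosition d q) ∨ InProperPosition d q)
    (D : MvPolynomial (Fin n ⊕ Fin n) ℂ) (hD : D ∉ Q) (M : ℝ) :
    ∃ x : Fin n → ℂ, M < ‖x‖ ∧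
      (∀ f ∈ Q, eval (Sum.elim x fun i => Complex.exp (x i)) f = 0) ∧
      eval (Sum.elim x fun i => Complex.exp (x i)) D ≠ 0 := by
  have := hQ
  have := hq
  exact Lib.MP_209724_lc.GF.final hd Q hy hdim (Q.comap (rename Sum.inl))
    (fun c => Ideal.mem_comap) hW q hZ hWZ.1 hWZ.2 hpos D hD M

end Pool.Agent.Results.MP_209724_lc.GeneralPosition
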