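import Mathlib
import Pool.Agent.Lib.MP_209724_lc.QM.FinalE

/-!
# Quasiminimality for exponential systems with few exponentials

Zilber's quasiminimality conjecture, which follows from a positive answer to Q1, says that every subset
of `ℂ` which is definable in `(ℂ, +, *, exp)` is countable or has a countable complement. We prove this for
the projections of systems of exponential equations with at most three quantified variables, or at most
three equations, or at most one equation with exponentials of the quantified variables, or at most two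
such exponentials; the dependence on the free variable is arbitrary (iterated exponentials).
-/

namespace Pool.Agent.Results.MP_209724_lc.Quasiminimality

open MvPolynomial

/-- Iterated exponential polynomials in one variable: the functions `ℂ → ℂ` obtained from the constants
and the identity by sums, products and composition with `exp`. -/
inductive ExpPoly : (ℂ → ℂ) → Prop
  | const (c : ℂ) : ExpPoly fun _ => c
  | id : ExpPoly fun a => a
  | add {s t : ℂ → ℂ} (hs : ExpPoly s) (ht : ExpPoly t) : ExpPoly fun a => s a + t a
  | mul {s t : ℂ → ℂ} (hs : ExpPoly s) (ht : ExpPoly t) : ExpPoly fun a => s a * t a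
  | exp {t : ℂ → ℂ} (ht : ExpPoly t) : ExpPoly fun a => Complex.exp (t a)

/-- The value `f (a; x, exp x)` of the polynomial `f` in the variables `x₁, …, xₘ` (`Sum.inl`) and
`y₁, …, yₘ` (`Sum.inr`), whose coefficients are functions of `a`. -/
noncomputable def value {m : ℕ} (f : MvPolynomial (Fin m ⊕ Fin m) (ℂ → ℂ)) (a : ℂ)
    (x : Fin m → ℂ) : ℂ :=
  eval (Sum.elim x fun i => Complex.exp (x i)) (map (Pi.evalRingHom (fun _ => ℂ) a) f)

/-- The set of all `a` for which the system `S` has a solution `x`. -/
def projection {m : ℕ} (S : Set (MvPolynomial (Fin m ⊕ Fin m) (ℂ → ℂ))) : Set ℂ :=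
  {a | ∃ x : Fin m → ℂ, ∀ f ∈ S, value f a x = 0}

private theorem isTerm {t : ℂ → ℂ} (ht : ExpPoly t) : Lib.MP_209724_lc.QM.IsTerm Set.univ t := by
  induction ht with
  | const c => exact .const c (Set.mem_univ c)
  | id => exact .var
  | add _ _ h1 h2 => exact .add h1 h2
  | mul _ _ h1 h2 => exact .mul h1 h2
  | exp _ h => exact .exp h

/-- **Quasiminimality** for systems with few variables, few equations or few exponentials. -/
theorem result {m : ℕ} (S : Set (MvPolynomial (Fin m ⊕ Fin m) (ℂ → ℂ))) (hS : S.Countable)
    (hc : ∀ f ∈ S, ∀ d, ExpPoly (f.coeff d))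
    (h : m ≤ 3 ∨ S.encard ≤ 3 ∨ {f ∈ S | ∃ i : Fin m, Sum.inr i ∈ f.vars}.encard ≤ 1 ∨
      {i : Fin m | ∃ f ∈ S, Sum.inr i ∈ f.vars}.encard ≤ 2) :
    (projection S).Countable ∨ (projection S)ᶜ.Countable :=
  Lib.MP_209724_lc.QM.finalE S hS (fun f hf d => isTerm (hc f hf d)) h

end Pool.Agent.Results.MP_209724_lc.Quasiminimality
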