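import Mathlib
import Pool.Agent.Lib.MP_209724_lc.SC.Final2
import Pool.Agent.Lib.MP_209724_lc.SC3.Final

/-!
# Generic exponential points: the full axiom (SEAC) (i) for strongly rotund varieties

Let `V ⊆ ℂⁿ × (ℂ*)ⁿ` be an irreducible variety with `dim B·V > rank B` for all integral matrices
`B ≠ 0`. Let `W` be the closure of its projection to `ℂⁿ`, of dimension `d`, and suppose that

* `dim V ≥ 2 n - 2` (every `V` satisfies this if `n ≤ 3`: see `dimV_of_le_three`), or
* the asymptotic cone of `W` has an irreducible component `Z` of dimension `d > 0` which either is in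
  general position and has Zariski dense real points, or is in proper position (for instance,
  `W = ℂⁿ`: see `goodAtInfinity_of_projDim`), or
* `W` is a hypersurface and no monomial `y ^ m` with `m ≠ 0` is algebraic over `ℂ(W)`.

Let `K` be a countable field over which `V` is defined. Then there is a point `(x, exp x)` on `V` with
`tr.deg_K (x, exp x) = dim V`, that is, an exponential point which is generic in `V` over `K`.

The variety `V` is given by a prime ideal `Q` of `ℂ[x, y]`, `x = (x₁, …, xₙ)`, `y = (y₁, …, yₙ)`,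
which contains no `y i`. The variable `x i` is `X (Sum.inl i)`, the variable `y i` is `X (Sum.inr i)`.
-/

namespace Pool.Agent.Results.MP_209724_lc.StrongClosedness

open MvPolynomial Topology Pool.Agent.Lib.MP_209724_lc.SC

variable {n : ℕ}

/-- The function field of `V`. -/
abbrev FunctionField (Q : Ideal (MvPolynomial (Fin n ⊕ Fin n) ℂ)) [Q.IsPrime] : Type :=
  FractionRing (MvPolynomial (Fin n ⊕ Fin n) ℂ ⧸ Q)

/-- The function on `V` given by a polynomial in `x`, `y`. -/
noncomputable def fn (Q : Ideal (MvPolynomial (Fin n ⊕ Fin n) ℂ)) [Q.IsPrime]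
    (f : MvPolynomial (Fin n ⊕ Fin n) ℂ) : FunctionField Q :=
  algebraMap (MvPolynomial (Fin n ⊕ Fin n) ℂ ⧸ Q) (FunctionField Q) (Ideal.Quotient.mk Q f)

/-- The coordinate function `x i` on `V`. -/
noncomputable def xcoord (Q : Ideal (MvPolynomial (Fin n ⊕ Fin n) ℂ)) [Q.IsPrime] (i : Fin n) :
    FunctionField Q := fn Q (X (Sum.inl i))

/-- The coordinate function `y i` on `V`. -/
noncomputable def ycoord (Q : Ideal (MvPolynomial (Fin n ⊕ Fin n) ℂ)) [Q.IsPrime] (i : Fin n) :
    FunctionField Q := fn Q (X (Sum.inr i))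

/-- `V` is strongly rotund: for every integral matrix `B ≠ 0`, the dimension of the image of `V` under
`(x, y) ↦ (B x, y ^ B)`, which is the transcendence degree of the algebra generated by the functions
`∑ j, B i j * x j` and `∏ j, y j ^ B i j` on `V`, is greater than the rank of `B`. -/
def StronglyRotund (Q : Ideal (MvPolynomial (Fin n ⊕ Fin n) ℂ)) [Q.IsPrime] : Prop :=
  ∀ B : Matrix (Fin n) (Fin n) ℤ, B ≠ 0 →
    ((B.map (Int.cast : ℤ → ℚ)).rank : Cardinal) <
      Algebra.trdeg ℂ (Algebra.adjoin ℂ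
        (Set.range (fun i => ∑ j, (B i j : FunctionField Q) * xcoord Q j) ∪
          Set.range fun i => ∏ j, ycoord Q j ^ B i j))

/-- The dimension of the closure `W` of the projection of `V` to `ℂⁿ`. -/
noncomputable def projDim (Q : Ideal (MvPolynomial (Fin n ⊕ Fin n) ℂ)) [Q.IsPrime] : Cardinal :=
  Algebra.trdeg ℂ (Algebra.adjoin ℂ (Set.range (xcoord Q)))

/-- The function `y ^ m` on `V` is algebraic over the field `ℂ(W)` generated by the `x i`. -/
def AlgebraicMonomial (Q : Ideal (MvPolynomial (Fin n ⊕ Fin n) ℂ)) [Q.IsPrime]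
    (m : Fin n → ℤ) : Prop :=
  IsAlgebraic (Algebra.adjoin ℂ (Set.range (xcoord Q))) (∏ i, ycoord Q i ^ m i)

/-- The asymptotic cone of the zero set `W` of the ideal `p`: the limits of `x j / r j`, where
`r j` are reals tending to infinity and `x j ∈ W`. -/
def AsymptoticCone (p : Ideal (MvPolynomial (Fin n) ℂ)) : Set (Fin n → ℂ) :=
  {w | ∃ (r : ℕ → ℝ) (x : ℕ → Fin n → ℂ), Filter.Tendsto r Filter.atTop Filter.atTop ∧
    (∀ j, ∀ f ∈ p, eval (x j) f = 0) ∧
      Filter.Tendsto (fun j => (r j)⁻¹ • x j) Filter.atTop (𝓝 w)}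

/-- The zero set `Z` of the prime ideal `q` is an irreducible component of the asymptotic cone of
the zero set of `p`: it is contained in the cone, and the points of the cone outside of `Z` are
zeros of a polynomial `G ∉ q`. -/
def IsComponent (p q : Ideal (MvPolynomial (Fin n) ℂ)) : Prop :=
  (∀ z : Fin n → ℂ, (∀ f ∈ q, eval z f = 0) → z ∈ AsymptoticCone p) ∧
    ∃ G ∉ q, ∀ z ∈ AsymptoticCone p, eval z G ≠ 0 → ∀ f ∈ q, eval z f = 0

/-- The real points of the zero set of the prime ideal `q` are Zariski dense in it. -/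
def RealPointsDense (q : Ideal (MvPolynomial (Fin n) ℂ)) : Prop :=
  ∀ g ∉ q, ∃ η : Fin n → ℝ, (∀ f ∈ q, eval (fun i => (η i : ℂ)) f = 0) ∧
    eval (fun i => (η i : ℂ)) g ≠ 0

/-- Any `d` linear forms with integer coefficients which are linearly independent are algebraically
independent on the zero set of the prime ideal `q` (of dimension `d`). -/
def InGeneralPosition (d : ℕ) (q : Ideal (MvPolynomial (Fin n) ℂ)) : Prop :=
  ∀ m : Fin d → Fin n → ℤ, LinearIndependent ℤ m →
    AlgebraicIndependent ℂ fun j => Ideal.Quotient.mk q (∑ k, C (m j k : ℂ) * X k)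

/-- No `d` linear forms with integer coefficients which are linearly independent have a common zero
other than `0` on the zero set of the ideal `q` (a cone of dimension `d`). -/
def InProperPosition (d : ℕ) (q : Ideal (MvPolynomial (Fin n) ℂ)) : Prop :=
  ∀ m : Fin d → Fin n → ℤ, LinearIndependent ℤ m → ∀ z : Fin n → ℂ,
    (∀ f ∈ q, eval z f = 0) → (∀ j, ∑ k, (m j k : ℂ) * z k = 0) → z = 0

/-- The asymptotic cone of `W`, the zero set of `Q ∩ ℂ[x]`, has an irreducible component `Z` of the
dimension `d > 0` of `W` which is in general position and has Zariski dense real points, or which is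
in proper position. -/
def GoodAtInfinity (Q : Ideal (MvPolynomial (Fin n ⊕ Fin n) ℂ)) [Q.IsPrime] : Prop :=
  ∃ (d : ℕ) (q : Ideal (MvPolynomial (Fin n) ℂ)), 0 < d ∧ projDim Q = d ∧ q.IsPrime ∧
    Algebra.trdeg ℂ (MvPolynomial (Fin n) ℂ ⧸ q) = d ∧
    IsComponent (Q.comap (rename Sum.inl)) q ∧
    ((RealPointsDense q ∧ InGeneralPosition d q) ∨ InProperPosition d q)

/-- Every point of `ℂⁿ` is a point of the asymptotic cone of `ℂⁿ`. -/
theorem mem_asymptoticCone_bot (z : Fin n → ℂ) :
    z ∈ AsymptoticCone (⊥ : Ideal (MvPolynomial (Fin n) ℂ)) := by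
  refine ⟨fun j => (j : ℝ), fun j => (j : ℝ) • z, tendsto_natCast_atTop_atTop, ?_, ?_⟩
  · intro j f hf
    rw [Ideal.mem_bot.1 hf, map_zero]
  · refine tendsto_const_nhds.congr' ?_
    filter_upwards [Filter.eventually_ne_atTop 0] with j hj
    rw [smul_smul, inv_mul_cancel₀ (by exact_mod_cast hj), one_smul]

/-- `ℂⁿ` is in proper position. -/
theorem inProperPosition_bot : InProperPosition n (⊥ : Ideal (MvPolynomial (Fin n) ℂ)) := by
  intro m hm z _ hz
  have h1 : LinearIndependent ℚ (fun j => ((↑) : ℤ → ℚ) ∘ m j) := by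
    rw [← LinearIndependent.iff_fractionRing (R := ℤ) (K := ℚ)]
    have h2 := hm.map' ((Algebra.linearMap ℤ ℚ).compLeft (Fin n)) (by
      rw [LinearMap.ker_eq_bot]
      intro a b hab
      funext i
      have := congrFun hab i
      simpa using this)
    exact h2
  have h3 : IsUnit (Matrix.of fun j => ((↑) : ℤ → ℚ) ∘ m j) :=
    Matrix.linearIndependent_rows_iff_isUnit.1 h1
  have h4 : (Matrix.of fun j k => (m j k : ℂ)).det ≠ 0 := by
    have h5 := (Matrix.isUnit_iff_isUnit_det _).1 h3
    have h6 : (Matrix.of fun j k => (m j k : ℂ)).det =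
        ((Matrix.of fun j => ((↑) : ℤ → ℚ) ∘ m j).det : ℂ) := by
      rw [← Rat.coe_castHom, RingHom.map_det]
      congr 1
    rw [h6]
    exact_mod_cast h5.ne_zero
  refine Matrix.eq_zero_of_mulVec_eq_zero h4 ?_
  funext j
  simpa [Matrix.mulVec, dotProduct] using hz j

/-- If the projection of `V` to `ℂⁿ` is dominant, then it is good at infinity. -/
theorem goodAtInfinity_of_projDim (hn : 0 < n) (Q : Ideal (MvPolynomial (Fin n ⊕ Fin n) ℂ))
    [hQ : Q.IsPrime] (h : projDim Q = n) : GoodAtInfinity Q := by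
  have h1 : AlgebraicIndependent ℂ (xcoord Q) :=
    Pool.Agent.Lib.MP_209724_lc.OV.algebraicIndependent_of_td_range _
      (Pool.Agent.Lib.MP_209724_lc.OV.td_of_trdeg_adjoin _ h)
  have h2 : Q.comap (rename (R := ℂ) Sum.inl) = ⊥ := by
    rw [eq_bot_iff]
    intro f hf
    rw [Ideal.mem_bot]
    refine h1.eq_zero_of_aeval_eq_zero f ?_
    have h3 : ∀ f : MvPolynomial (Fin n) ℂ, aeval (xcoord Q) f = fn Q (rename Sum.inl f) := by
      intro f
      induction f using MvPolynomial.induction_on with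
      | C a =>
        rw [aeval_C, rename_C]
        rfl
      | add p q hp hq =>
        rw [map_add, hp, hq]
        simp only [fn, map_add]
      | mul_X p i hp =>
        rw [map_mul, hp, aeval_X]
        simp only [fn, xcoord, map_mul, rename_X]
    rw [h3, fn, Ideal.Quotient.eq_zero_iff_mem.2 (Ideal.mem_comap.1 hf), map_zero]
  refine ⟨n, ⊥, hn, h, Ideal.isPrime_bot, ?_, ?_, Or.inr inProperPosition_bot⟩
  · rw [(AlgEquiv.quotientBot ℂ (MvPolynomial (Fin n) ℂ)).trdeg_eq,
      MvPolynomial.trdeg_of_isDomain, Cardinal.mk_fin, Cardinal.lift_natCast]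
  · rw [h2]
    refine ⟨fun z _ => mem_asymptoticCone_bot z, 1, ?_, fun z _ _ f hf => ?_⟩
    · rw [Ideal.mem_bot]
      exact one_ne_zero
    · rw [Ideal.mem_bot.1 hf, map_zero]

/-- The dimension of `V`. -/
noncomputable def dimV (Q : Ideal (MvPolynomial (Fin n ⊕ Fin n) ℂ)) : Cardinal :=
  Algebra.trdeg ℂ (MvPolynomial (Fin n ⊕ Fin n) ℂ ⧸ Q)

theorem aeval_eq_zero_iff (Q : Ideal (MvPolynomial (Fin n ⊕ Fin n) ℂ)) [hQ : Q.IsPrime]
    (f : MvPolynomial (Fin n ⊕ Fin n) ℂ) :
    aeval (Sum.elim (xcoord Q) (ycoord Q)) f = 0 ↔ f ∈ Q := by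
  have hinj : Function.Injective
      (algebraMap (MvPolynomial (Fin n ⊕ Fin n) ℂ ⧸ Q) (FunctionField Q)) :=
    IsFractionRing.injective _ _
  have hfn : ∀ f, fn Q f = 0 ↔ f ∈ Q := by
    intro f
    rw [fn, map_eq_zero_iff _ hinj, Ideal.Quotient.eq_zero_iff_mem]
  have haev : ∀ f : MvPolynomial (Fin n ⊕ Fin n) ℂ,
      aeval (Sum.elim (xcoord Q) (ycoord Q)) f = fn Q f := by
    intro f
    induction f using MvPolynomial.induction_on with
    | C a =>
      rw [aeval_C]
      rfl
    | add p q hp hq =>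
      rw [map_add, hp, hq]
      simp only [fn, map_add]
    | mul_X p i hp =>
      rw [map_mul, hp, aeval_X]
      rcases i with i | i
      · simp only [fn, xcoord, Sum.elim_inl, map_mul]
      · simp only [fn, ycoord, Sum.elim_inr, map_mul]
  rw [haev, hfn]

/-- In at most three variables every strongly rotund `V` has dimension at least `2 n - 2`. -/
theorem dimV_of_le_three (hn : 0 < n) (hn3 : n ≤ 3) (Q : Ideal (MvPolynomial (Fin n ⊕ Fin n) ℂ))
    [hQ : Q.IsPrime] (hrot : StronglyRotund Q) : (2 * n : Cardinal) ≤ dimV Q + 2 := by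
  have h1 := Cardinal.natCast_add_one_le_iff.2 (Pool.Agent.Lib.MP_209724_lc.SC4.dim_gt hn Q
    (xcoord Q) (ycoord Q) (aeval_eq_zero_iff Q) hrot)
  calc (2 * n : Cardinal) ≤ (n : Cardinal) + 1 + 2 := by
        have h2 : 2 * n ≤ n + 1 + 2 := by omega
        exact_mod_cast h2
    _ ≤ dimV Q + 2 := by
        gcongr
        exact h1

/-- Let `n > 0` and let `Q` be a prime ideal of `ℂ[x, y]`, `x = (x₁, …, xₙ)`, `y = (y₁, …, yₙ)`,
which contains no `y i`, such that its zero set `V` in `ℂⁿ × (ℂ*)ⁿ` is strongly rotund. Let `W` be the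
closure of the projection of `V` to `ℂⁿ`; suppose that `dim V ≥ 2 n - 2`, or that the asymptotic cone
of `W` has an irreducible component as in `GoodAtInfinity`, or that `dim W = n - 1` and no `y ^ m` with
`m ≠ 0` is algebraic over `ℂ(W)`. Let `K` be a countable subfield of `ℂ` such that `Q` is
generated by polynomials with coefficients in `K`. Then there is `x ∈ ℂⁿ` such that `(x, exp x)` is a
zero of `Q` and the transcendence degree of `(x, exp x)` over `K` is the dimension of `V`. -/
theorem result (hn : 0 < n) (Q : Ideal (MvPolynomial (Fin n ⊕ Fin n) ℂ)) [hQ : Q.IsPrime]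
    (hy : ∀ i, (X (Sum.inr i) : MvPolynomial (Fin n ⊕ Fin n) ℂ) ∉ Q)
    (hrot : StronglyRotund Q)
    (hW : 2 * n ≤ dimV Q + 2 ∨ GoodAtInfinity Q ∨
      (projDim Q + 1 = n ∧ ∀ m : Fin n → ℤ, AlgebraicMonomial Q m → m = 0))
    (K : Subfield ℂ) (hK : (K : Set ℂ).Countable) (S : Set (MvPolynomial (Fin n ⊕ Fin n) K))
    (hS : Q = Ideal.span (map (algebraMap K ℂ) '' S)) :
    ∃ x : Fin n → ℂ,
      (∀ f ∈ Q, eval (Sum.elim x fun i => Complex.exp (x i)) f = 0) ∧
      Algebra.trdeg K (Algebra.adjoin K (Set.range x ∪ Set.range fun i => Complex.exp (x i))) =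
        dimV Q := by
  have hinj : Function.Injective
      (algebraMap (MvPolynomial (Fin n ⊕ Fin n) ℂ ⧸ Q) (FunctionField Q)) :=
    IsFractionRing.injective _ _
  have hfn : ∀ f, fn Q f = 0 ↔ f ∈ Q := by
    intro f
    rw [fn, map_eq_zero_iff _ hinj, Ideal.Quotient.eq_zero_iff_mem]
  have haev : ∀ f : MvPolynomial (Fin n ⊕ Fin n) ℂ,
      aeval (Sum.elim (xcoord Q) (ycoord Q)) f = fn Q f := by
    intro f
    induction f using MvPolynomial.induction_on with
    | C a =>
      rw [aeval_C]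
      rfl
    | add p q hp hq =>
      rw [map_add, hp, hq]
      simp only [fn, map_add]
    | mul_X p i hp =>
      rw [map_mul, hp, aeval_X]
      rcases i with i | i
      · simp only [fn, xcoord, Sum.elim_inl, map_mul]
      · simp only [fn, ycoord, Sum.elim_inr, map_mul]
  have hxy : ∀ f : MvPolynomial (Fin n ⊕ Fin n) ℂ,
      aeval (Sum.elim (xcoord Q) (ycoord Q)) f = 0 ↔ f ∈ Q := fun f => by rw [haev, hfn]
  have hcK : Countable K := hK.to_subtype
  have hQI : Q = (Ideal.span S).map (map (algebraMap K ℂ)) := by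
    rw [Ideal.map_span]
    exact hS
  rcases hW with hdim | ⟨d, q, hd, hW, hq, hZ, hWZ, hpos⟩ | ⟨hW, hm⟩
  · exact Pool.Agent.Lib.MP_209724_lc.SC4.final_few hn Q hy (xcoord Q) (ycoord Q) hxy hrot hdim K
      (Ideal.span S) hQI
  · have hker : RingHom.ker (aeval (xcoord Q) : MvPolynomial (Fin n) ℂ →ₐ[ℂ] FunctionField Q) =
        Q.comap (rename (R := ℂ) Sum.inl) := by
      ext f
      rw [RingHom.mem_ker, Ideal.mem_comap, ← hxy, aeval_rename, Sum.elim_comp_inl]
    have hrange : (aeval (xcoord Q) : MvPolynomial (Fin n) ℂ →ₐ[ℂ] FunctionField Q).range =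
        Algebra.adjoin ℂ (Set.range (xcoord Q)) := by
      rw [← Algebra.adjoin_range_eq_range_aeval]
    have e1 := Ideal.quotientKerEquivRange
      (aeval (xcoord Q) : MvPolynomial (Fin n) ℂ →ₐ[ℂ] FunctionField Q)
    have e2 := Subalgebra.equivOfEq _ _ hrange
    have e3 := Ideal.quotientEquivAlgOfEq ℂ hker
    have hpd : Algebra.trdeg ℂ (MvPolynomial (Fin n) ℂ ⧸ Q.comap (rename (R := ℂ) Sum.inl)) = d :=
      (((e3.symm.trans e1).trans e2).trdeg_eq).trans hW
    exact Pool.Agent.Lib.MP_209724_lc.SC3.final hn hd Q hy (xcoord Q) (ycoord Q) hxy hrot hpd q hZ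
      hWZ.1 hWZ.2 hpos K (Ideal.span S) hQI
  · refine final_codimOne hn Q hy (xcoord Q) (ycoord Q) hxy ?_ hW (fun m hm0 h => hm0 (hm m h))
      hrot K (Ideal.span S) hQI
    intro b
    obtain ⟨u, v, hv, rfl⟩ := IsFractionRing.div_surjective
      (A := MvPolynomial (Fin n ⊕ Fin n) ℂ ⧸ Q) b
    obtain ⟨f, rfl⟩ := Ideal.Quotient.mk_surjective u
    obtain ⟨g, rfl⟩ := Ideal.Quotient.mk_surjective v
    have key : ∀ f : MvPolynomial (Fin n ⊕ Fin n) ℂ, IsAlgebraic (Algebra.adjoin ℂ
        (Set.range (xcoord Q) ∪ Set.range (ycoord Q))) (fn Q f) := by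
      intro f
      have h1 : fn Q f ∈ Algebra.adjoin ℂ (Set.range (xcoord Q) ∪ Set.range (ycoord Q)) := by
        rw [← haev, ← Set.Sum.elim_range, Algebra.adjoin_range_eq_range_aeval]
        exact ⟨f, rfl⟩
      exact isAlgebraic_algebraMap (⟨_, h1⟩ : Algebra.adjoin ℂ
        (Set.range (xcoord Q) ∪ Set.range (ycoord Q)))
    exact (key f).mul (key g).inv

end Pool.Agent.Results.MP_209724_lc.StrongClosedness
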